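import Mathlib
import Pool.Agent.helper7.IG.Fin

/-!
# Parity of the partition function in arithmetic progressions: linear gaps

For every arithmetic progression `n ≡ a (mod t)`, every finite nonempty set `H` of shifts and
every automatic sequence `r` with values in `Z/2` there is a constant `K` such that every interval
`(x, K x]` contains an `n ≡ a (mod t)` at which the sum of `p(n - h)` over `h` in `H` is not
congruent to `r n` modulo 2.
-/

set_option autoImplicit false

namespace Pool.Agent.helper57.Reserve.AllProgressions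

/-- Linear gaps for the parity of `p` in every arithmetic progression, against every automatic
sequence. -/
theorem result (b : ℕ) (hb : 2 ≤ b) (r : ℕ → ZMod 2)
    (hr : {f : ℕ → ZMod 2 | ∃ e j : ℕ, j < b ^ e ∧ f = fun n => r (b ^ e * n + j)}.Finite)
    (H : Finset ℕ) (hH : H.Nonempty) (t a : ℕ) (ht : 1 ≤ t) :
    ∃ K : ℕ, ∀ x : ℕ, 1 ≤ x → ∃ n : ℕ, x < n ∧ n ≤ K * x ∧ n ≡ a [MOD t] ∧
      (∑ h ∈ H.filter (fun h => h ≤ n), (Fintype.card (Nat.Partition (n - h)) : ZMod 2)) ≠ r n :=
  Pool.Agent.helper7.IG.gap b r hb hr H hH t a ht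

end Pool.Agent.helper57.Reserve.AllProgressions
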